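import Mathlib

/-!
Two inequivalent generator multiplicity functions on `F_2^2` with the same number of generators,
all multiplicities positive, and isomorphic sandpile groups.
-/

namespace Pool.Agent.Results.MP_93e4b7_co.SameSandpile

/-- The Laplacian of the Cayley graph of `F_2^r` in which `w` and `w + u` are joined by `μ u`
edges, for each `u ≠ 0` (the value `μ 0` is not used). -/
def lap (r : ℕ) (μ : (Fin r → ZMod 2) → ℕ) :
    Matrix (Fin r → ZMod 2) (Fin r → ZMod 2) ℤ :=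
  Matrix.of fun u v =>
    if u = v then ∑ w ∈ Finset.univ.filter (fun w => w ≠ 0), (μ w : ℤ) else -(μ (v - u) : ℤ)

/-- The image of the Laplacian. -/
def image (r : ℕ) (μ : (Fin r → ZMod 2) → ℕ) : Submodule ℤ ((Fin r → ZMod 2) → ℤ) :=
  LinearMap.range (Matrix.toLin' (lap r μ))

/-- The cokernel of the Laplacian. -/
def Coker (r : ℕ) (μ : (Fin r → ZMod 2) → ℕ) : Type := ((Fin r → ZMod 2) → ℤ) ⧸ image r μ

instance (r : ℕ) (μ : (Fin r → ZMod 2) → ℕ) : AddCommGroup (Coker r μ) :=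
  Submodule.Quotient.addCommGroup (image r μ)

/-- The sandpile group: the torsion subgroup of the cokernel of the Laplacian. -/
def Sandpile (r : ℕ) (μ : (Fin r → ZMod 2) → ℕ) : Type := AddCommGroup.torsion (Coker r μ)

instance (r : ℕ) (μ : (Fin r → ZMod 2) → ℕ) : AddCommGroup (Sandpile r μ) :=
  AddSubgroup.toAddCommGroup (AddCommGroup.torsion (Coker r μ))

/-- The number of generators. -/
def numGen {r : ℕ} (μ : (Fin r → ZMod 2) → ℕ) : ℕ :=
  ∑ u ∈ Finset.univ.filter (fun u => u ≠ 0), μ u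

/-- The support of `μ` on the nonzero vectors spans. -/
def Generates {r : ℕ} (μ : (Fin r → ZMod 2) → ℕ) : Prop :=
  Submodule.span (ZMod 2) {u | u ≠ 0 ∧ μ u ≠ 0} = ⊤

/-- Equivalence under the general linear group of `F_2^r`. -/
def GLEquiv {r : ℕ} (μ ν : (Fin r → ZMod 2) → ℕ) : Prop :=
  ∃ T : (Fin r → ZMod 2) ≃ₗ[ZMod 2] (Fin r → ZMod 2), ∀ u, u ≠ 0 → ν (T u) = μ u

/-- Position of a vector of `F_2^2` in the list `00, 10, 01, 11`. -/
def code (u : Fin 2 → ZMod 2) : Fin 4 :=
  if u 0 = 0 then (if u 1 = 0 then 0 else 2) else (if u 1 = 0 then 1 else 3)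

/-- First multiplicity function, with values 5, 28, 30 on `10, 01, 11`. -/
def μ₁ : (Fin 2 → ZMod 2) → ℕ := fun u => ![0, 5, 28, 30] (code u)

/-- Second multiplicity function, with values 8, 21, 34 on `10, 01, 11`. -/
def μ₂ : (Fin 2 → ZMod 2) → ℕ := fun u => ![0, 8, 21, 34] (code u)

/-- A matrix indexed by `F_2^2` from a matrix indexed by `Fin 4`. -/
def up (A : Matrix (Fin 4) (Fin 4) ℤ) : Matrix (Fin 2 → ZMod 2) (Fin 2 → ZMod 2) ℤ :=
  Matrix.of fun u v => A (code u) (code v)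

def P : Matrix (Fin 2 → ZMod 2) (Fin 2 → ZMod 2) ℤ :=
  up !![1, 0, 0, 0; -51761662436, -1134052344, -2266195510, 1;
    79004640776, 1730921969, 3458929928, 0; -27242978340, -596869624, -1192734417, 0]

def Pi : Matrix (Fin 2 → ZMod 2) (Fin 2 → ZMod 2) ℤ :=
  up !![1, 0, 0, 0; -1048175028072, 0, 1192734417, 3458929928;
    524529036764, 0, -596869624, -1730921969; 523645991308, 1, -595864792, -1728007958]

def Q : Matrix (Fin 2 → ZMod 2) (Fin 2 → ZMod 2) ℤ :=
  up !![28980554712, -2318444377, -12171798309, -14490312025;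
    -52664304, 4213144, 22118957, 26332204;
    86961726725, -6956938138, -36523821195, -43480967391; 0, 0, 0, 1]

def Qi : Matrix (Fin 2 → ZMod 2) (Fin 2 → ZMod 2) ℤ :=
  up !![-97401294986, 12175161873, 32466981293, 52759151821;
    -1071420902545, 133927612815, 357139013448, 580354276283;
    -27827752552, 3478469069, 9275884080, 15073399404; 0, 0, 0, 1]

set_option maxRecDepth 100000 in
theorem PPi : P * Pi = 1 := by decide +kernel

set_option maxRecDepth 100000 in
theorem PiP : Pi * P = 1 := by decide +kernel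

set_option maxRecDepth 100000 in
theorem QQi : Q * Qi = 1 := by decide +kernel

set_option maxRecDepth 100000 in
theorem PL : P * lap 2 μ₁ = lap 2 μ₂ * Q := by decide +kernel

/-- Multiplication by `P`. -/
noncomputable def e : ((Fin 2 → ZMod 2) → ℤ) ≃ₗ[ℤ] ((Fin 2 → ZMod 2) → ℤ) :=
  Matrix.toLin'OfInv PiP PPi

theorem map_range : (image 2 μ₁).map (e : _ →ₗ[ℤ] _) = image 2 μ₂ := by
  show (LinearMap.range (Matrix.toLin' (lap 2 μ₁))).map (e : _ →ₗ[ℤ] _) =
    LinearMap.range (Matrix.toLin' (lap 2 μ₂))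
  have he : (e : ((Fin 2 → ZMod 2) → ℤ) →ₗ[ℤ] ((Fin 2 → ZMod 2) → ℤ)) = Matrix.toLin' P :=
    LinearMap.ext fun x => rfl
  rw [he, ← LinearMap.range_comp, ← Matrix.toLin'_mul, PL, Matrix.toLin'_mul]
  rw [LinearMap.range_comp]
  have hQ : LinearMap.range (Matrix.toLin' Q) = ⊤ := by
    rw [LinearMap.range_eq_top]
    intro x
    refine ⟨Matrix.toLin' Qi x, ?_⟩
    rw [← LinearMap.comp_apply, ← Matrix.toLin'_mul, QQi, Matrix.toLin'_one]
    rfl
  rw [hQ, Submodule.map_top]

/-- The cokernels are isomorphic. -/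
noncomputable def cokerEquiv : Coker 2 μ₁ ≃+ Coker 2 μ₂ :=
  (Submodule.Quotient.equiv (image 2 μ₁) (image 2 μ₂) e map_range).toAddEquiv

theorem torsion_map {A B : Type} [AddCommGroup A] [AddCommGroup B] (f : A ≃+ B) :
    (AddCommGroup.torsion A).map (f : A →+ B) = AddCommGroup.torsion B := by
  ext b
  constructor
  · rintro ⟨a, ha, rfl⟩
    exact (f : A →+ B).isOfFinAddOrder ha
  · intro hb
    refine ⟨f.symm b, ?_, by simp⟩
    exact (f.symm : B →+ A).isOfFinAddOrder hb

/-- For `r = 2` there are two generator multiplicity functions, with all multiplicities positive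
and with equally many generators, that are not equivalent and have isomorphic sandpile
groups. -/
theorem result : ∃ (μ ν : (Fin 2 → ZMod 2) → ℕ),
    Generates μ ∧ Generates ν ∧ (∀ u, u ≠ 0 → 0 < μ u ∧ 0 < ν u) ∧
    numGen μ = numGen ν ∧ ¬ GLEquiv μ ν ∧ Nonempty (Sandpile 2 μ ≃+ Sandpile 2 ν) := by
  have pos : ∀ u : Fin 2 → ZMod 2, u ≠ 0 → 0 < μ₁ u ∧ 0 < μ₂ u := by decide +kernel
  have gen : ∀ μ : (Fin 2 → ZMod 2) → ℕ, (∀ u, u ≠ 0 → 0 < μ u) → Generates μ := by
    intro μ h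
    rw [Generates, eq_top_iff]
    intro u _
    by_cases hu : u = 0
    · rw [hu]; exact Submodule.zero_mem _
    · exact Submodule.subset_span ⟨hu, (h u hu).ne'⟩
  refine ⟨μ₁, μ₂, gen _ fun u hu => (pos u hu).1, gen _ fun u hu => (pos u hu).2, pos,
    by decide +kernel, ?_, ?_⟩
  · rintro ⟨T, hT⟩
    have h1 := hT ![1, 0] (by decide)
    have h2 : ∀ u, μ₂ u ≠ μ₁ ![1, 0] := by decide +kernel
    exact h2 _ h1
  · let f : Coker 2 μ₁ ≃+ Coker 2 μ₂ := cokerEquiv
    have h := torsion_map f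
    exact ⟨(f.addSubgroupMap (AddCommGroup.torsion (Coker 2 μ₁))).trans
      (AddEquiv.addSubgroupCongr h)⟩

end Pool.Agent.Results.MP_93e4b7_co.SameSandpile
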